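import Pool.Agent.MP_5c28a4_al.H13S.Base

/-!
Nilpotent action on a multiple of the module and modulo a multiple of the module.
-/

set_option autoImplicit false

namespace Pool.Agent.MP_5c28a4_al.H89S.StrA

open scoped commutatorElement

theorem nila (hB : BVn) (hR : XRed) (hP : XPcr) (hT : XT) (hW : XTow) : XNila := by
  intro u hu N A _ _ ρ K c m d h1 h2 h3 h4 h5 h6 h7
  obtain ⟨K₁, n, -, h8, h9, a, ha, t, h10⟩ := hT _ _ (hP 2 Nat.prime_two _ (hu 2 Nat.prime_two))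
    d N A ρ K c m h1 h2 (h3 2 Nat.prime_two) h4 h5 h6 h7
  have := pw_normal h8.1 n
  obtain ⟨A', _, ρ', h11, -, h12⟩ := hR N A ρ (pw K₁ n) a t h10
  have hs := QuotientGroup.mk'_surjective (pw K₁ n)
  have h13 := hB.map _ _ _ K₁ hs h8
  obtain ⟨m', D, h14, h15, h16, h17⟩ := hW u hu _ A' ρ' (K₁.map (QuotientGroup.mk' (pw K₁ n)))
    (Group.fg_of_surjective hs) inferInstance (fun p hp => h11 _ (h3 p hp)) h13.1
    ⟨n, h9, by
      rintro _ ⟨x, hx, rfl⟩
      rw [← map_pow]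
      exact (QuotientGroup.eq_one_iff _).2 (pow_mem_pw hx n)⟩
  refine ⟨_, (a * m' ^ t).natAbs, 1 * t, hB.comap _ _ (QuotientGroup.mk' (pw K₁ n)) _
    (hB.itc _ _ D 1 h13 h15 h16), Int.natAbs_pos.2 (mul_ne_zero ?_ (pow_ne_zero t h14)),
    kill_dvd (h12 m' _ 1 (kill_mono h17 ?_)) (Int.dvd_natAbs.2 dvd_rfl)⟩
  · rintro rfl
    exact ha (dvd_zero _)
  · rintro _ ⟨x, hx, rfl⟩
    exact hx

namespace NlA

variable {N A : Type} [Group N] [AddCommGroup A] (ρ : Representation ℤ N A)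

/-- the action modulo a multiple of the module -/
theorem quo (p : ℤ) : ∃ (A' : Type) (_ : AddCommGroup A') (ρ' : Representation ℤ N A')
    (π : A →ₗ[ℤ] A'), (∀ u, Sat u ρ → Sat u ρ') ∧ (∀ l x, wd ρ' l (π x) = π (wd ρ l x)) ∧
      ∀ x, π x = 0 → ∃ y, x = p • y := by
  obtain ⟨U, hU⟩ : ∃ U : Submodule ℤ A, ∀ x, x ∈ U ↔ ∃ y, p • y = x :=
    ⟨LinearMap.range (p • LinearMap.id), fun _ => Iff.rfl⟩
  have h1 : ∀ g, U ≤ U.comap (ρ g) := fun g x hx => by
    obtain ⟨y, rfl⟩ := (hU x).1 hx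
    exact (hU _).2 ⟨ρ g y, (map_smul _ _ _).symm⟩
  have h2 : ∀ g x, ρ.quotient U h1 g (U.mkQ x) = U.mkQ (ρ g x) := fun g x => rfl
  refine ⟨A ⧸ U, inferInstance, ρ.quotient U h1, U.mkQ, fun u hu φ => ?_, fun l x => ?_,
    fun x hx => ?_⟩
  · refine LinearMap.ext fun x => ?_
    obtain ⟨x, rfl⟩ := U.mkQ_surjective x
    have h3 := congrArg U.mkQ (LinearMap.congr_fun (hu φ) x)
    simpa only [Finsupp.sum, LinearMap.sum_apply, LinearMap.smul_apply, h2, map_sum, map_smul,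
      LinearMap.zero_apply, map_zero] using h3
  · induction l with
    | nil => rfl
    | cons y l ih =>
      simp only [wd_cons, Module.End.mul_apply, LinearMap.sub_apply, Module.End.one_apply, ih, h2,
        map_sub]
  · obtain ⟨y, hy⟩ := (hU x).1 ((Submodule.Quotient.mk_eq_zero U).1 hx)
    exact ⟨y, hy.symm⟩

end NlA

theorem lay (hB : BVn) (hP : XPcr) (hT : XT) : XLay := by
  intro u hu N A _ _ ρ K c m d m₀ h1 h2 h3 h4 h5 h6 h7
  induction m₀ using induction_on_primes with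
  | zero => exact fun h => absurd h (lt_irrefl 0)
  | one => exact fun _ => ⟨K, 1, 0, h4, one_pos, fun l _ _ x => ⟨_, (one_smul _ _).symm⟩⟩
  | prime_mul p b hp ih =>
    intro h0
    obtain ⟨K₂, n₂, t₂, h8, h9, h10⟩ := ih (Nat.pos_of_mul_pos_left h0)
    obtain ⟨A', _, ρ', π, h11, h12, h13⟩ := NlA.quo ρ p
    obtain ⟨K₁, n₁, -, h14, h15, a, ha, t₁, h16⟩ := hT _ _ (hP p hp _ (hu p hp))
      d N A' ρ' K c m h1 h2 (h11 _ (h3 p hp)) h4 h5 h6 h7
    refine ⟨K₁ ⊓ K₂, n₁ * n₂, t₁ + t₂, hB.inf _ _ _ h14 h8, Nat.mul_pos h15 h9,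
      fun l hl hy x => ?_⟩
    obtain ⟨y, e1⟩ := h10 (l.drop t₁) (by simp [hl]) (fun z hz =>
      pw_mono inf_le_right _ (pw_dvd _ (dvd_mul_left n₂ n₁) (hy z (List.mem_of_mem_drop hz)))) x
    have e2 := LinearMap.congr_fun (kill_iff.1 h16 (l.take t₁) (by simp [hl]) fun z hz =>
      pw_mono inf_le_left _ (pw_dvd _ (dvd_mul_right n₁ n₂) (hy z (List.mem_of_mem_take hz)))) (π y)
    rw [LinearMap.smul_apply, h12, ← map_smul, LinearMap.zero_apply] at e2
    obtain ⟨z, e3⟩ := h13 _ e2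
    obtain ⟨s, t, e4⟩ := ((Nat.prime_iff_prime_int.1 hp).irreducible.coprime_iff_not_dvd.2 ha)
    refine ⟨s • wd ρ (l.take t₁) y + t • z, ?_⟩
    have e5 : wd ρ (l.take t₁) y = p • (s • wd ρ (l.take t₁) y + t • z) := by
      rw [← natCast_zsmul, smul_add, smul_comm (p : ℤ) t, ← e3, smul_smul, smul_smul, ← add_smul,
        mul_comm, e4, one_smul]
    rw [← List.take_append_drop t₁ l, wd_append, Module.End.mul_apply, e1, map_nsmul, mul_comm,
      mul_smul, List.take_append_drop, ← e5]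

end Pool.Agent.MP_5c28a4_al.H89S.StrA
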