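import Pool.Agent.MP_5c28a4_al.H86S.CubeC

/-!
The cube properties along a tower of normal subgroups with elementary abelian factors.
-/

set_option autoImplicit false

namespace Pool.Agent.MP_5c28a4_al.H89S

open scoped commutatorElement

namespace CubeA

variable {G I : Type} [Group G] [Fintype I] [DecidableEq I] {h : ℕ} {q : ℕ → ℕ}
  {L : ℕ → Subgroup G} {c : ℕ} {w : FreeGroup I} {a r : ℕ}

/-- the cube property at one level -/
def GG (w : FreeGroup I) (L : ℕ → Subgroup G) (a r : ℕ) : Prop := ∃ N : ℕ, ∀ g : I → G,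
  Phi w (L a) g → ∀ l : List (I → G), N ≤ l.length → (∀ b ∈ l, All (L 0) b) →
    PMod r (L a) (VL (wφ g w.norm) l) →
    ∃ J : List (I → G), J.Sublist l ∧ J ≠ [] ∧ Phi w (L a) (J.prod * g)

/-- bounded support at one level -/
def BS (w : FreeGroup I) (L : ℕ → Subgroup G) (a : ℕ) : Prop := ∃ N : ℕ,
  ∀ (g u : I → G) (ι : Type) (M : ι → Subgroup G), (∀ α, M α ≤ L a) →
    All (L (a + 1) ⊔ ⨆ α, M α) u → Phi w (L (a + 1)) (u * g) →
    ∃ (A : Finset ι) (u' : I → G), A.card ≤ N ∧ All (L (a + 1) ⊔ ⨆ α ∈ A, M α) u' ∧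
      Phi w (L (a + 1)) (u' * g)

/-- the cube property with prescribed components, window form -/
def LW (w : FreeGroup I) (L : ℕ → Subgroup G) (a r : ℕ) : Prop := ∃ N : ℕ,
  ∀ (g u : I → G) (M : Subgroup G), L (a + 1) ≤ M → M ≤ L a → All M u →
    Phi w (L (a + 1)) (u * g) → ∀ l : List (I → G), N ≤ l.length → (∀ b ∈ l, All (L 0) b) →
    PMod r (L (a + 1)) (VL (wφ g w.norm) l) → (∀ x ∈ VL (wφ g w.norm) l, Nz x M) →
    ∃ J : List (I → G), J.Sublist l ∧ J ≠ [] ∧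
      ∃ u' : I → G, All M u' ∧ Phi w (L (a + 1)) (u' * J.prod * g)

lemma tw_anti (T : Tower h q L) : Antitone L := antitone_nat_of_succ_le T.anti

lemma tw_pos (T : Tower h q L) : 0 < ∏ a ∈ Finset.range h, q a :=
  Finset.prod_pos fun a _ => (T.prime a).pos

omit [Fintype I] in
lemma tw_VL (T : Tower h q L) (g : I → G) {l : List (I → G)} (hl : ∀ b ∈ l, All (L a) b) :
    VL (wφ g w.norm) l ≤ L a :=
  VL_le fun b hb => wφ_mem (fun _ => nz_normal (T.normal a) _) _ (hl b hb)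

lemma gg_base (hF : BFin) (hS : BSt) (hC : BCom) (T : Tower h q L) (hc : STc (L 0) c)
    (hr : r.Prime) (ha : h ≤ a) : GG w L a r := by
  have := finite_WI (I := I) w.norm
  obtain ⟨h1, h2⟩ := hF.towerExp G h q L T
  have h3 : L a = ⊥ := le_bot_iff.1 (T.bot ▸ tw_anti T ha)
  obtain ⟨N, hN⟩ := base' hC (WI I w.norm) c (tw_pos T)
  refine ⟨N, fun g ⟨u, h4, h5⟩ l hl h6 h7 => ?_⟩
  obtain rfl : u = 1 := funext fun i => by simpa [h3] using h4 i
  rw [one_mul] at h5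
  have h8 := tw_VL (w := w) T g h6
  obtain ⟨J, h9, h10, h11⟩ := hN G (I → G) (wφ g w.norm) (VL (wφ g w.norm) l)
    (le_bot_iff.1 (h3 ▸ hS.glob G (L 0) _ (L a) c r hr h1 hc h8 (T.normal a) h7))
    (fun x hx => h2 x (h8 hx)) (FreeGroup.lift g w)⁻¹ (inv_ne_one.2 h5) l hl (mem_PP_VL _ l)
  refine ⟨J, h9, h10, phi_of _ fun e => h11 ?_⟩
  simpa only [e, one_mul] using lift_mem g J.prod w

lemma bs_of (T : Tower h q L) (hG : GG w L (a + 1) (q a)) : BS w L a := by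
  classical
  obtain ⟨N, hN⟩ := hG
  refine ⟨N, fun g u ι M hM hu hP => ?_⟩
  have hK : ∀ B : Finset ι, L (a + 1) ⊔ ⨆ α ∈ B, M α ≤ L a := fun B =>
    sup_le (T.anti a) (iSup₂_le fun α _ => hM α)
  have hZ : ∀ B : Finset ι, ∀ z ∈ L a, Nz z (L (a + 1) ⊔ ⨆ α ∈ B, M α) := fun B z hz =>
    nz_comm ((T.comm a).trans le_sup_left) (hK B) hz
  choose A₀ hA₀ using fun i => mem_dir (hu i)
  have h0 : All (L (a + 1) ⊔ ⨆ α ∈ Finset.univ.biUnion A₀, M α) u := fun i =>
    (sup_le_sup_left (biSup_mono (Finset.subset_biUnion_of_mem A₀ (Finset.mem_univ i))) _ :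
      L (a + 1) ⊔ ⨆ α ∈ A₀ i, M α ≤ _) (hA₀ i)
  generalize Finset.univ.biUnion A₀ = A at h0
  clear hA₀ hu
  induction A using Finset.strongInduction generalizing u with
  | H A ih =>
    by_cases hn : A.card ≤ N
    · exact ⟨A, u, hn, h0, hP⟩
    have h1 : ∀ α i, ∃ m ∈ M α, m * u i ∈ L (a + 1) ⊔ ⨆ β ∈ A.erase α, M β := fun α i => by
      have h2 : L (a + 1) ⊔ ⨆ β ∈ A, M β ≤ M α ⊔ (L (a + 1) ⊔ ⨆ β ∈ A.erase α, M β) := by
        refine sup_le (le_sup_of_le_right le_sup_left) (iSup₂_le fun β hβ => ?_)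
        rcases eq_or_ne β α with rfl | h3
        · exact le_sup_left
        · exact le_sup_of_le_right (le_sup_of_le_right
            (le_iSup₂_of_le β (Finset.mem_erase.2 ⟨h3, hβ⟩) le_rfl))
      have h4 := SetLike.mem_coe.2 (h2 (h0 i))
      rw [Subgroup.coe_mul_of_left_le_normalizer_right _ _
        fun z hz => nz_iff.1 (hZ _ z (hM α hz))] at h4
      obtain ⟨m, h5, k, h6, e⟩ := h4
      exact ⟨m⁻¹, inv_mem h5, by rwa [← e, inv_mul_cancel_left]⟩
    choose m hm hm' using h1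
    have h2 : ∀ b ∈ A.toList.map m, All (L a) b := fun b hb i => by
      obtain ⟨α, -, rfl⟩ := List.mem_map.1 hb
      exact hM α (hm α i)
    obtain ⟨J, h3, h4, h5⟩ := hN (u * g) hP (A.toList.map m) (by simp; omega)
      (fun b hb i => tw_anti T (Nat.zero_le a) (h2 b hb i))
      fun x hx => ⟨1, by simpa using T.pow a x (tw_VL T _ h2 hx)⟩
    obtain ⟨S, h6, rfl⟩ := List.sublist_map_iff.1 h3
    obtain _ | ⟨α, S⟩ := S
    · exact absurd rfl h4
    have h7 := List.nodup_cons.1 (A.nodup_toList.sublist h6)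
    have h8 : ∀ β ∈ α :: S, β ∈ A := fun β hβ => Finset.mem_toList.1 (h6.subset hβ)
    refine ih (A.erase α) (Finset.erase_ssubset (h8 α List.mem_cons_self))
      ((List.map m (α :: S)).prod * u) (by rwa [mul_assoc]) fun i => ?_
    have h9 : (S.map m).prod ∈ PP (MonoidHom.id _) (L (a + 1) ⊔ ⨆ β ∈ A.erase α, M β) := by
      refine Submonoid.list_prod_mem _ fun b hb j => ?_
      obtain ⟨β, hβ, rfl⟩ := List.mem_map.1 hb
      exact Subgroup.mem_sup_right ((le_iSup₂_of_le β (Finset.mem_erase.2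
        ⟨fun e : β = α => h7.1 (e ▸ hβ), h8 β (List.mem_cons_of_mem _ hβ)⟩) le_rfl : M β ≤ _) (hm β j))
    simpa [mul_assoc] using mul_mem (hZ _ _ (hM α (hm α i)) _ (h9 i)).1 (hm' α i)

lemma lw_of (hF : BFin) (hS : BSt) (hC : BCom) (hD : SDec) (T : Tower h q L) (hc : STc (L 0) c)
    (hr : r.Prime) (hq : r ≠ q a) (hB : BS w L a) (hG : GG w L (a + 1) r) : LW w L a r := by
  have := finite_WI (I := I) w.norm
  obtain ⟨h1, h2⟩ := hF.towerExp G h q L T
  obtain ⟨K, hK⟩ := hB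
  obtain ⟨N', hN'⟩ := hG
  obtain ⟨N, hN⟩ := rnd hC (WI I w.norm) c K (pow_pos hr.pos (∏ a ∈ Finset.range h, q a)) N'
  refine ⟨N, fun g u M hM hM' hu hP l hl h3 h4 h5 => ?_⟩
  obtain ⟨Q, _, π, hk, hs⟩ := exPi (T.normal (a + 1))
  have hcm : (M.map π).comap π = M := Subgroup.comap_map_eq_self (hk.le.trans hM)
  have h6 := tw_VL (w := w) T g h3
  have h7 : PMod r ⊥ ((VL (wφ g w.norm) l).map π) := pmod_bot hk h4
  have h8 : Finite ((VL (wφ g w.norm) l).map π) := by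
    rw [map_VL]
    exact VL_fin (locFin_map π h1) (map_VL π _ l ▸ Subgroup.map_mono h6)
  have h9 : Hyp c (r ^ ∏ a ∈ Finset.range h, q a) K ((VL (wφ g w.norm) l).map π) fun H =>
      ∃ u', All M u' ∧ Phi w (L (a + 1)) (u' * g) ∧
        All ((Subgroup.centralizer (H : Set _)).comap π) u' := by
    refine ⟨?_, ?_, ⟨u, hu, hP, fun i x hx => by simp [Subgroup.mem_bot.1 hx]⟩, fun H H' e ⟨u', e1, e2, e3⟩ =>
      ⟨u', e1, e2, fun i => Subgroup.centralizer_le e (e3 i)⟩,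
      fun r' hr' hd E₁ E₂ e1 e2 e3 e4 ⟨u', e5, e6, e7⟩ => ?_⟩
    · rw [← Subgroup.map_lowerCentralSeries, Subgroup.map_eq_bot_iff, hk]
      exact hS.glob G (L 0) _ _ c r hr h1 hc h6 (T.normal _) h4
    · intro x hx
      obtain ⟨e, he⟩ := h7 x hx
      obtain ⟨y, hy, rfl⟩ := hx
      exact pow_exp hr (tw_pos T) (by rw [← map_pow, h2 y (h6 hy), map_one]) he
    obtain rfl : r' = r := (Nat.prime_dvd_prime_iff_eq hr' hr).1 (hr'.dvd_of_dvd_pow hd)
    have : Finite E₁ := Finite.of_injective _ (Subgroup.inclusion_injective e2)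
    have h10 := hD _ ⊥ (M.map π ⊓ Subgroup.centralizer (E₂ : Set _)) E₁ E₂ (q a) r' (T.prime a) hr
      hq.symm bot_le
      ((Subgroup.commutator_mono inf_le_left inf_le_left).trans (by
        rw [← Subgroup.map_commutator, le_bot_iff, Subgroup.map_eq_bot_iff, hk]
        exact (Subgroup.commutator_mono hM' hM').trans (T.comm a)))
      (by
        rintro _ ⟨⟨y, hy, rfl⟩, -⟩
        rw [Subgroup.mem_bot, ← map_pow, ← MonoidHom.mem_ker, hk]
        exact T.pow a y (hM' hy))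
      (fun x hx y hy => by
        have h11 := nz_cen (nz_comm e3 e1 hx) y hy.2
        obtain ⟨z, hz, rfl⟩ := e2 hx
        have h12 := nz_map π (h5 z hz) y hy.1
        exact ⟨⟨h12.1, h11.1⟩, h12.2, h11.2⟩)
      e1 Subgroup.index_ne_zero_of_finite e3 e4
      (by
        rw [Subgroup.commutator_comm, le_bot_iff, Subgroup.commutator_eq_bot_iff_le_centralizer]
        exact inf_le_right)
    obtain ⟨A, u'', h11, h12, h13⟩ := hK g u' _
      (fun ζ : {ζ : Q → ZMod r' // AddOn E₁ ζ ∧ ∀ x ∈ E₂, ζ x = 0} =>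
        (cz ⊥ (M.map π ⊓ Subgroup.centralizer (E₂ : Set _)) {x | x ∈ E₁ ∧ ζ.1 x = 0}).comap π)
      (fun ζ x hx => hM' (hcm ▸ (cz_bot hx).1.1))
      (fun i => by
        rw [← hk, sup_comm, ← Subgroup.comap_map_eq, Subgroup.map_iSup]
        simp only [Subgroup.map_comap_eq_self_of_surjective hs]
        exact h10 ⟨⟨_, e5 i, rfl⟩, e7 i⟩) e6
    refine ⟨_, A, Subtype.val, h11, fun ζ _ => ζ.2, fun H hH hz => ?_⟩
    have h14 : L (a + 1) ⊔ ⨆ ζ ∈ A, (cz ⊥ (M.map π ⊓ Subgroup.centralizer (E₂ : Set _))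
        {x | x ∈ E₁ ∧ ζ.1 x = 0}).comap π ≤ M ⊓ (Subgroup.centralizer (H : Set _)).comap π := by
      refine sup_le (le_inf hM (hk ▸ π.ker_le_comap _)) (iSup₂_le fun ζ hζ x hx => ?_)
      exact ⟨hcm ▸ (cz_bot hx).1.1, fun y hy => (cz_bot hx).2 y ⟨hH hy, hz ζ hζ y hy⟩⟩
    exact ⟨u'', fun i => (h14 (h12 i)).1, h13, fun i => (h14 (h12 i)).2⟩
  have h10 : ∀ b ∈ l, b ∈ PP (cφ π (wφ g w.norm)) ((VL (wφ g w.norm) l).map π) :=
    map_VL π _ l ▸ mem_PP_VL _ l
  obtain ⟨l', h11, h12, u', h13, h14, h15⟩ := hN _ _ _ _ _ h9 l hl h10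
  obtain ⟨J', h16, h17, h18⟩ := hN' (u' * g) h14 l' h12.ge
    (h11.mem (PP (MonoidHom.id _) (L 0)) h3) (pmod_of hk h7 fun b hb s => by
      have h19 := wφ_cen (g := fun i => π (g i)) (b := fun i => π (b i)) (u := fun i => π (u' i))
        (n := w.norm) fun i s => by
          rw [← wφ_map]
          exact h15 i _ (mem_PP_VL _ l' b hb s)
      rw [wφ_map]
      simp only [Pi.mul_apply, map_mul]
      refine (congrFun h19 s).symm ▸ ?_
      rw [← wφ_map]
      exact h11.mem _ h10 b hb s)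
  obtain ⟨J, h19, h20, h21⟩ := (h11.trans (Blk.of_sub h16 h17)).ex _ List.mem_cons_self
  refine ⟨J, h19, h20, J.prod * u' * J.prod⁻¹, fun i => ?_, by
    rwa [inv_mul_cancel_right, mul_assoc, h21]⟩
  have h22 := (Blk.of_sub h19 h20).mem _ (mem_PP_VL (wφ g w.norm) l) _ List.mem_cons_self
    (⟨1, Nat.zero_le _⟩, i)
  rw [wφ_one] at h22
  exact (h5 _ h22 _ (h13 i)).1

omit [Fintype I] in
lemma gg_eq (T : Tower h q L) (hG : GG w L (a + 1) (q a)) : GG w L a (q a) := by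
  obtain ⟨N, hN⟩ := hG
  refine ⟨N, fun g ⟨u, h1, h2⟩ l hl h3 h4 => ?_⟩
  obtain ⟨Q, _, π, hk, -⟩ := exPi (T.normal a)
  have h5 : ∀ i, π (u i) = 1 := fun i => (hk.ge (h1 i) :)
  have h6 : PMod (q a) (L a) (VL (wφ (u * g) w.norm) l) :=
    pmod_of hk (pmod_bot hk h4) fun b hb s => ⟨_, mem_PP_VL _ l b hb s, by
      simp only [wφ_map, Pi.mul_apply, map_mul, h5, one_mul]⟩
  obtain ⟨J, h7, h8, h9⟩ := hN (u * g) (phi_of _ h2) l hl h3 fun x hx => by
    obtain ⟨e, he⟩ := h6 x hx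
    exact ⟨e + 1, by rw [pow_succ, pow_mul]; exact T.pow a _ he⟩
  exact ⟨J, h7, h8, phi_cong hk (T.anti a) h9 fun i => by
    simp only [Pi.mul_apply, map_mul, h5, one_mul]⟩

lemma gg_ne (hF : BFin) (hW : SLNW) (T : Tower h q L) (hr : r.Prime) (hq : r ≠ q a)
    (hL : LW w L a r) : GG w L a r := by
  obtain ⟨N, hN⟩ := hL
  refine ⟨N, fun g ⟨u, h1, h2⟩ l hl h3 h4 => ?_⟩
  obtain ⟨Q, _, π, hk, hs⟩ := exPi (T.normal (a + 1))
  obtain ⟨Q', _, π', hk', -⟩ := exPi (T.normal a)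
  have hcm : ((L a).map π).comap π = L a := Subgroup.comap_map_eq_self (hk.le.trans (T.anti a))
  obtain ⟨v, J, s, h5, -, -, h6, h7, h8⟩ := hW Q I ((L 0).map π) ((L a).map π) r hr
    ((T.normal 0).map π hs) (locFin_map π (hF.towerExp G h q L T).1) ((T.normal a).map π hs)
    (Subgroup.map_mono (tw_anti T (Nat.zero_le a)))
    (by
      rintro _ ⟨x, hx, rfl⟩
      exact ⟨q a, (Nat.coprime_primes (T.prime a) hr).2 hq.symm,
        (map_pow π _ _).symm.trans (hk.ge (T.pow a x hx))⟩)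
    (fun i => π (g i)) w.norm (vals (MonoidHom.id _) (l.map fun b i => π (b i))) (vals_fin _ _)
    (by
      rintro _ ⟨_, hb, i, rfl⟩
      obtain ⟨b, hb', rfl⟩ := List.mem_map.1 hb
      exact ⟨_, h3 b hb' i, rfl⟩)
    (by
      rw [← VL_win]
      refine fun x hx => pmod_map π h4 x (VL_le (fun b hb s => ?_) hx)
      obtain ⟨b, hb', rfl⟩ := List.mem_map.1 hb
      exact ⟨_, mem_PP_VL _ l b hb' s, wφ_map π _ _ _ _⟩)
  choose v' h9 h10 using h5
  choose s' hs' using fun x : G => hs (s (π x))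
  have h11 : ∀ b ∈ l, ∀ i, s' (b i) * (b i)⁻¹ ∈ L a := fun b hb i => by
    rw [← hcm, Subgroup.mem_comap, map_mul, map_inv, hs']
    exact h7 _ ⟨_, List.mem_map_of_mem hb, i, rfl⟩
  have h12 : ∀ b ∈ l.map fun b i => s' (b i), All (L 0) b := fun b hb i => by
    obtain ⟨b, hb', rfl⟩ := List.mem_map.1 hb
    simpa using mul_mem (tw_anti T (Nat.zero_le a) (h11 b hb' i)) (h3 b hb' i)
  obtain ⟨J', h13, h14, u', h15, h16⟩ := hN (v' * g) (u * v'⁻¹) (L a) (T.anti a) le_rfl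
    (fun i => mul_mem (h1 i) (inv_mem (h9 i))) (phi_of _ (by simpa [mul_assoc] using h2))
    (l.map fun b i => s' (b i)) (by simpa using hl) h12
    (pmod_of hk (J := J) (fun x hx => by simpa [Subtype.ext_iff] using h6 ⟨x, hx⟩) fun b hb t => by
      obtain ⟨b, hb', rfl⟩ := List.mem_map.1 hb
      refine h8 (Subgroup.subset_closure ⟨t.1.1, t.1.2, _,
        ⟨_, ⟨_, List.mem_map_of_mem hb', t.2, rfl⟩, rfl⟩, ?_⟩)
      simp only [wφ_map, Pi.mul_apply, map_mul, h10, hs']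
      rfl)
    fun x _ => nz_normal (T.normal a) x
  obtain ⟨S, h17, rfl⟩ := List.sublist_map_iff.1 h13
  refine ⟨S, h17, fun e => h14 (by simp [e]), phi_cong hk' (T.anti a) h16 fun i => ?_⟩
  have h18 : ∀ x ∈ L a, π' x = 1 := fun x hx => hk'.ge hx
  have h19 : ∀ S : List (I → G), (∀ b ∈ S, b ∈ l) →
      π' ((S.map fun b i => s' (b i)).prod i) = π' (S.prod i) := by
    intro S
    induction S with
    | nil => exact fun _ => rfl
    | cons b S ih =>
      intro e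
      have e' := h18 _ (h11 b (e b List.mem_cons_self) i)
      rw [map_mul, map_inv, mul_inv_eq_one] at e'
      simp only [List.map_cons, List.prod_cons, Pi.mul_apply, map_mul, e',
        ih fun b hb => e b (List.mem_cons_of_mem _ hb)]
  simp only [Pi.mul_apply, map_mul, h18 _ (h15 i), h18 _ (h9 i), one_mul, h19 S h17.subset]

lemma gg_all (hF : BFin) (hS : BSt) (hC : BCom) (hW : SLNW) (hD : SDec) (T : Tower h q L)
    (hc : STc (L 0) c) (w : FreeGroup I) (a : ℕ) : ∀ r : ℕ, r.Prime → GG w L a r := by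
  have h1 : ∀ k a, h ≤ a + k → ∀ r : ℕ, r.Prime → GG w L a r := by
    intro k
    induction k with
    | zero => exact fun a ha r hr => gg_base hF hS hC T hc hr ha
    | succ k ih =>
      intro a ha r hr
      have h2 := ih (a + 1) (by omega)
      rcases eq_or_ne r (q a) with rfl | hq
      · exact gg_eq T (h2 _ hr)
      · exact gg_ne hF hW T hr hq
          (lw_of hF hS hC hD T hc hr hq (bs_of T (h2 _ (T.prime a))) (h2 r hr))
  exact h1 h a (Nat.le_add_left h a)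

end CubeA

theorem bs (hF : BFin) (hS : BSt) (hC : BCom) (hW : SLNW) (hD : SDec) : SBS := by
  classical
  intro G I _ _ h q L c w a T hc
  exact CubeA.bs_of T (CubeA.gg_all hF hS hC hW hD T hc w (a + 1) _ (T.prime a))

theorem ls (hF : BFin) (hS : BSt) (hC : BCom) (hW : SLNW) (hD : SDec) : SLS := by
  classical
  intro G I _ _ h q L c w a r T hc hr hq
  have h1 := CubeA.gg_all hF hS hC hW hD T hc w (a + 1)
  obtain ⟨N, hN⟩ := CubeA.lw_of hF hS hC hD T hc hr hq (CubeA.bs_of T (h1 _ (T.prime a))) (h1 r hr)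
  refine ⟨N, fun g u M E h2 h3 h4 h5 h6 h7 h8 h9 l hl h10 => ?_⟩
  have h11 : CubeA.VL (CubeA.wφ g w.norm) l ≤ E :=
    CubeA.VL_le fun b hb => CubeA.wφ_mem h7 _ (h10 b hb)
  exact hN g u M h2 h3 h8 h9 l hl (fun b hb i => h4 (h10 b hb i)) (fun x hx => h5 x (h11 hx))
    fun x hx => h6 x (h11 hx)

end Pool.Agent.MP_5c28a4_al.H89S
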