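import Pool.Agent.MP_5c28a4_al.H89S.Spec

/-!
Blocks of lists, polynomial functions on monoids, and the killing of multi-additive forms.
-/

set_option autoImplicit false

namespace Pool.Agent.MP_5c28a4_al.H89S.CubeA

section Blk

variable {α : Type} [Monoid α]

/-- the second list consists of the products of consecutive non-empty blocks of a sublist -/
inductive Blk : List α → List α → Prop
  | nil : Blk [] []
  | skip (a : α) {l l' : List α} : Blk l l' → Blk (a :: l) l'
  | new (a : α) {l l' : List α} : Blk l l' → Blk (a :: l) (a :: l')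
  | mul (a : α) {b : α} {l l' : List α} : Blk l (b :: l') → Blk (a :: l) (a * b :: l')

lemma Blk.trans {l l' l'' : List α} (h : Blk l l') (h' : Blk l' l'') : Blk l l'' := by
  induction h generalizing l'' with
  | nil => exact h'
  | skip a _ ih => exact (ih h').skip a
  | new a _ ih =>
    cases h' with
    | skip _ h2 => exact (ih h2).skip a
    | new _ h2 => exact (ih h2).new a
    | mul _ h2 => exact (ih h2).mul a
  | @mul a b _ _ _ ih =>
    cases h' with
    | skip _ h2 => exact (ih (h2.skip b)).skip a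
    | new _ h2 => exact (ih (h2.new b)).mul a
    | mul _ h2 =>
      rw [mul_assoc]
      exact (ih (h2.mul b)).mul a

lemma Blk.of_sublist {l J : List α} (h : J.Sublist l) : Blk l J := by
  induction h with
  | slnil => exact .nil
  | cons a _ ih => exact ih.skip a
  | cons_cons a _ ih => exact ih.new a

lemma Blk.append {l l' m m' : List α} (h : Blk l l') (h' : Blk m m') : Blk (l ++ m) (l' ++ m') := by
  induction h with
  | nil => exact h'
  | skip a _ ih => exact ih.skip a
  | new a _ ih => exact ih.new a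
  | mul a _ ih => exact Blk.mul a ih

lemma Blk.prod {J : List α} (h : J ≠ []) : Blk J [J.prod] := by
  induction J with
  | nil => exact absurd rfl h
  | cons a J ih =>
    rcases eq_or_ne J [] with rfl | h1
    · simpa using Blk.nil.new a
    · exact (ih h1).mul a

lemma Blk.of_sub {l J : List α} (h : J.Sublist l) (h0 : J ≠ []) : Blk l [J.prod] :=
  (Blk.of_sublist h).trans (Blk.prod h0)

lemma Blk.ex {l l' : List α} (h : Blk l l') :
    ∀ x ∈ l', ∃ J : List α, J.Sublist l ∧ J ≠ [] ∧ J.prod = x := by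
  induction h with
  | nil => simp
  | skip a _ ih =>
    intro x hx
    obtain ⟨J, h1, h2⟩ := ih x hx
    exact ⟨J, h1.cons a, h2⟩
  | new a _ ih =>
    intro x hx
    rcases List.mem_cons.1 hx with rfl | hx
    · exact ⟨[x], by simp, by simp, by simp⟩
    · obtain ⟨J, h1, h2⟩ := ih x hx
      exact ⟨J, h1.cons a, h2⟩
  | mul a _ ih =>
    intro x hx
    rcases List.mem_cons.1 hx with rfl | hx
    · obtain ⟨J, h1, _, h3⟩ := ih _ List.mem_cons_self
      exact ⟨a :: J, h1.cons_cons a, by simp, by rw [List.prod_cons, h3]⟩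
    · obtain ⟨J, h1, h2⟩ := ih x (List.mem_cons_of_mem _ hx)
      exact ⟨J, h1.cons a, h2⟩

lemma Blk.mem {l l' : List α} (h : Blk l l') (P : Submonoid α) (hl : ∀ b ∈ l, b ∈ P) :
    ∀ b ∈ l', b ∈ P := fun b hb => by
  obtain ⟨J, h1, -, rfl⟩ := h.ex b hb
  exact P.list_prod_mem fun x hx => hl x (h1.subset hx)

end Blk

section Deg

variable {α R : Type} [Monoid α] [CommRing R] {P : Submonoid α}

/-- the differences of order `d` vanish on `P` -/
def Deg (P : Submonoid α) : ℕ → (α → R) → Prop
  | 0, F => ∀ x ∈ P, F x = 0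
  | d + 1, F => ∀ b ∈ P, Deg P d fun x => F (b * x) - F x

lemma Deg.congr : ∀ {d : ℕ} {F F' : α → R}, Deg P d F → (∀ x ∈ P, F x = F' x) → Deg P d F'
  | 0, _, _, h, e => fun x hx => (e x hx).symm.trans (h x hx)
  | _ + 1, _, _, h, e => fun b hb => (h b hb).congr fun x hx => by
    rw [e x hx, e _ (P.mul_mem hb hx)]

lemma Deg.lin : ∀ {d : ℕ} {F F' : α → R} (s t : R), Deg P d F → Deg P d F' →
    Deg P d fun x => s * F x + t * F' x
  | 0, _, _, _, _, h, h' => fun x hx => by simp only [h x hx, h' x hx, mul_zero, add_zero]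
  | _ + 1, _, _, s, t, h, h' => fun b hb => (Deg.lin s t (h b hb) (h' b hb)).congr fun x _ => by
    ring

lemma Deg.add {d : ℕ} {F F' : α → R} (h : Deg P d F) (h' : Deg P d F') :
    Deg P d fun x => F x + F' x := (h.lin 1 1 h').congr fun _ _ => by ring

lemma Deg.sub {d : ℕ} {F F' : α → R} (h : Deg P d F) (h' : Deg P d F') :
    Deg P d fun x => F x - F' x := (h.lin 1 (-1) h').congr fun _ _ => by ring

lemma Deg.succ : ∀ {d : ℕ} {F : α → R}, Deg P d F → Deg P (d + 1) F
  | 0, _, h => fun b hb x hx => by simp only [h x hx, h _ (P.mul_mem hb hx), sub_zero]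
  | _ + 1, _, h => fun b hb => (h b hb).succ

lemma Deg.mono {d e : ℕ} {F : α → R} (h : Deg P d F) (hd : d ≤ e) : Deg P e F := by
  induction hd with
  | refl => exact h
  | step _ ih => exact ih.succ

lemma Deg.shift {d : ℕ} {F : α → R} (h : Deg P d F) {b : α} (hb : b ∈ P) :
    Deg P d fun x => F (b * x) := by
  cases d with
  | zero => exact fun x hx => h _ (P.mul_mem hb hx)
  | succ d => exact ((h b hb).succ.add h).congr fun _ _ => by ring

lemma Deg.const (s : R) (d : ℕ) : Deg P (d + 1) fun _ : α => s :=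
  Deg.mono (d := 1) (fun _ _ _ _ => sub_self _) (Nat.le_add_left 1 d)

lemma Deg.mul_aux : ∀ (n d e : ℕ) {F F' : α → R}, d + e = n + 1 → Deg P d F → Deg P e F' →
    Deg P n fun x => F x * F' x := by
  intro n
  induction n with
  | zero =>
    intro d e F F' hn h h' x hx
    rcases d with _ | d
    · simp only [h x hx, zero_mul]
    · obtain rfl : e = 0 := by omega
      simp only [h' x hx, mul_zero]
  | succ n ih =>
    intro d e F F' hn h h'
    rcases d with _ | d
    · exact Deg.mono (d := 0) (fun x hx => by simp only [h x hx, zero_mul]) (Nat.zero_le _)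
    rcases e with _ | e
    · exact Deg.mono (d := 0) (fun x hx => by simp only [h' x hx, mul_zero]) (Nat.zero_le _)
    intro b hb
    exact ((ih d (e + 1) (by omega) (h b hb) (h'.shift hb)).add
      (ih (d + 1) e (by omega) h (h' b hb))).congr fun _ _ => by ring

lemma Deg.mul {d e : ℕ} {F F' : α → R} (h : Deg P (d + 1) F) (h' : Deg P (e + 1) F') :
    Deg P (d + e + 1) fun x => F x * F' x := Deg.mul_aux _ _ _ (by omega) h h'

lemma Deg.pow {d : ℕ} {F : α → R} (h : Deg P (d + 1) F) (k : ℕ) :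
    Deg P (d * k + 1) fun x => F x ^ k := by
  induction k with
  | zero => simpa using Deg.const (1 : R) 0
  | succ k ih => exact (ih.mul h).congr fun _ _ => (pow_succ _ _).symm

lemma Deg.prod {ι : Type} {d : ℕ} {F : ι → α → R} (A : Finset ι)
    (h : ∀ a ∈ A, Deg P (d + 1) (F a)) : Deg P (A.card * d + 1) fun x => ∏ a ∈ A, F a x := by
  induction A using Finset.cons_induction with
  | empty => simpa using Deg.const (1 : R) 0
  | cons a A ha ih =>
    rw [Finset.card_cons, add_mul, one_mul]
    exact ((ih fun b hb => h b (Finset.mem_cons_of_mem hb)).mul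
      (h a (Finset.mem_cons_self _ _))).congr fun _ _ => by rw [Finset.prod_cons, mul_comm]

/-- A polynomial function that vanishes at all other vertices of a large cube vanishes at `1`. -/
lemma Deg.cube : ∀ (l : List α) {F : α → R}, Deg P l.length F → (∀ b ∈ l, b ∈ P) →
    (∀ J : List α, J.Sublist l → J ≠ [] → F J.prod = 0) → F 1 = 0
  | [], _, h, _, _ => h 1 P.one_mem
  | b :: l, F, h, hl, h0 => by
    have h1 := Deg.cube l (h b (hl b List.mem_cons_self))
      (fun x hx => hl x (List.mem_cons_of_mem _ hx)) fun J h2 h3 => by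
        rw [← List.prod_cons, h0 _ (h2.cons_cons b) (by simp), h0 J (h2.cons b) h3, sub_zero]
    have h2 := h0 [b] (by simp) (by simp)
    simp only [List.prod_cons, List.prod_nil] at h2
    simp only [h2] at h1
    simpa using h1

/-- common zeros on a cube -/
lemma cw {r : ℕ} (hr : r.Prime) {ι : Type} {d : ℕ} (A : Finset ι) (F : ι → α → ZMod r)
    (h : ∀ a ∈ A, Deg P (d + 1) (F a)) (h1 : ∀ a ∈ A, F a 1 = 0) (l : List α)
    (hl : A.card * (d * (r - 1)) + 1 ≤ l.length) (hP : ∀ b ∈ l, b ∈ P) :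
    ∃ J : List α, J.Sublist l ∧ J ≠ [] ∧ ∀ a ∈ A, F a J.prod = 0 := by
  have : Fact r.Prime := ⟨hr⟩
  by_contra hn
  push Not at hn
  have h2 := Deg.cube l (((Deg.prod (F := fun a x => 1 - F a x ^ (r - 1)) A fun a ha =>
    (Deg.const 1 _).sub ((h a ha).pow _))).mono hl) hP fun J h3 h4 => by
      obtain ⟨a, ha, h5⟩ := hn J h3 h4
      exact Finset.prod_eq_zero ha (by rw [ZMod.pow_card_sub_one_eq_one h5, sub_self])
  rw [Finset.prod_eq_one fun a ha => by
    rw [h1 a ha, zero_pow (Nat.sub_ne_zero_of_lt hr.one_lt), sub_zero]] at h2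
  exact one_ne_zero h2

variable {G : Type} [Group G] {E : Subgroup G}

/-- `y` is constant or multiplicative -/
def Aff (P : Submonoid α) (E : Subgroup G) (y : α → G) : Prop :=
  (∀ x ∈ P, y x ∈ E) ∧ ∀ b ∈ P, ∃ u ∈ E, ∀ x ∈ P, y (b * x) = u * y x

lemma Deg.diag {y : α → G} (hy : Aff P E y) : ∀ {d : ℕ} {H : G → α → R},
    (∀ g ∈ E, Deg P d (H g)) → (∀ g ∈ E, ∀ g' ∈ E, ∀ x ∈ P, H (g * g') x = H g x + H g' x) →
    Deg P (d + 1) fun x => H (y x) x := by
  intro d
  induction d with
  | zero => exact fun h _ => Deg.succ (d := 0) fun x hx => h _ (hy.1 x hx) x hx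
  | succ d ih =>
    intro H h h' b hb
    obtain ⟨u, hu, h1⟩ := hy.2 b hb
    refine (((h u hu).shift hb).add (ih (H := fun g x => H g (b * x) - H g x)
      (fun g hg => h g hg b hb) fun g hg g' hg' x hx => ?_)).congr fun x hx => ?_
    · simp only [h' g hg g' hg' x hx, h' g hg g' hg' _ (P.mul_mem hb hx)]
      ring
    · simp only [h1 x hx, h' u hu _ (hy.1 x hx) _ (P.mul_mem hb hx)]
      ring

/-- additive in each entry -/
def MAdd (E : Subgroup G) {m : ℕ} (B : (Fin m → G) → R) : Prop :=
  ∀ (x : Fin m → G) (k : Fin m) (a b : G), (∀ i, x i ∈ E) → a ∈ E → b ∈ E →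
    B (Function.update x k (a * b)) = B (Function.update x k a) + B (Function.update x k b)

lemma MAdd.zero {m : ℕ} {B : (Fin m → G) → R} (h : MAdd E B) {x : Fin m → G} (hx : ∀ i, x i ∈ E)
    {k : Fin m} (hk : x k = 1) : B x = 0 := by
  have h1 := h x k 1 1 hx E.one_mem E.one_mem
  rw [mul_one, ← hk, Function.update_eq_self] at h1
  exact left_eq_add.1 h1

lemma MAdd.deg : ∀ {m : ℕ} {B : (Fin m → G) → R} {y : Fin m → α → G}, MAdd E B →
    (∀ k, Aff P E (y k)) → Deg P (m + 1) fun x => B fun k => y k x := by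
  intro m
  induction m with
  | zero =>
    intro B y _ _
    exact (Deg.const (B Fin.elim0) 0).congr fun x _ => congrArg B (Subsingleton.elim _ _)
  | succ m ih =>
    intro B y h hy
    refine (Deg.diag (hy 0) (H := fun g x => B (Fin.cons g fun k => y k.succ x))
      (fun g hg => ih (B := fun v => B (Fin.cons g v)) (fun v k a b hv ha hb => ?_)
        fun k => hy k.succ) fun g hg g' hg' x hx => ?_).congr fun x _ => ?_
    · simp only [Fin.cons_update]
      exact h _ _ a b (Fin.forall_fin_succ.2 ⟨hg, hv⟩) ha hb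
    · have h1 := h (Fin.cons g fun k => y k.succ x) 0 g g'
        (Fin.forall_fin_succ.2 ⟨hg, fun k => (hy k.succ).1 x hx⟩) hg hg'
      simpa only [Fin.update_cons_zero] using h1
    · exact congrArg B (Fin.cons_self_tail fun k => y k x)

end Deg

section Forms

variable {G α σ : Type} [Group G] [Monoid α]

/-- the elements whose values lie in `E` -/
def PP (φ : α →* σ → G) (E : Subgroup G) : Submonoid α where
  carrier := {b | All E (φ b)}
  one_mem' := fun s => by simp
  mul_mem' := fun {a b} ha hb s => by simpa using E.mul_mem (ha s) (hb s)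

/-- the values of the members of a list -/
def vals (φ : α →* σ → G) (l : List α) : Set G := {x | ∃ b ∈ l, ∃ s, x = φ b s}

end Forms

/-- blocks on which finitely many multi-additive forms vanish -/
lemma blk (σ : Type) [Finite σ] (m K : ℕ) {r : ℕ} (hr : r.Prime) (N' : ℕ) : ∃ N : ℕ,
    ∀ (G α ι : Type) [Group G] [Monoid α] (φ : α →* σ → G) (E : Subgroup G) (A : Finset ι)
      (B : ι → (Fin (m + 1) → G) → ZMod r), A.card ≤ K → (∀ a ∈ A, MAdd E (B a)) →
      ∀ l : List α, N ≤ l.length → (∀ b ∈ l, b ∈ PP φ E) → ∃ l', Blk l l' ∧ l'.length = N' ∧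
        ∀ a ∈ A, ∀ x, (∀ k, x k ∈ vals φ l') → B a x = 0 := by
  classical
  have := Fintype.ofFinite σ
  induction N' with
  | zero =>
    refine ⟨0, fun G α ι _ _ φ E A B _ _ l _ _ =>
      ⟨[], .of_sublist (List.nil_sublist l), rfl, fun a _ x hx => ?_⟩⟩
    obtain ⟨b, hb, -⟩ := hx 0
    simp at hb
  | succ N' ih =>
    obtain ⟨N, hN⟩ := ih
    obtain ⟨D, hD⟩ : ∃ D, D = K * Fintype.card (Fin (m + 1) → Option (Fin N') × σ) *
      ((m + 1) * (r - 1)) + 1 := ⟨_, rfl⟩
    refine ⟨D + N, fun G α ι _ _ φ E A B hA hB l hl hP => ?_⟩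
    obtain ⟨l', h1, h2, h3⟩ := hN G α ι φ E A B hA hB (l.drop D) (by simp; omega)
      fun b hb => hP b (List.mem_of_mem_drop hb)
    have h4 := h1.mem _ fun b hb => hP b (List.mem_of_mem_drop hb)
    obtain ⟨v, hv, hv'⟩ : ∃ v : Fin N' → α, (∀ t, v t ∈ l') ∧ ∀ b ∈ l', ∃ t, v t = b :=
      ⟨fun t => l'[t.1]'(h2 ▸ t.2), fun t => List.getElem_mem _, fun b hb => by
        obtain ⟨t, ht, rfl⟩ := List.mem_iff_getElem.1 hb
        exact ⟨⟨t, h2 ▸ ht⟩, rfl⟩⟩
    have h5 : ∀ τ : Option (Fin N') × σ, Aff (PP φ E) E fun x => φ (τ.1.elim x v) τ.2 := by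
      rintro ⟨_ | t, s⟩
      · exact ⟨fun x hx => hx s, fun b hb => ⟨_, hb s, fun x _ => by simp⟩⟩
      · exact ⟨fun _ _ => h4 _ (hv t) s, fun b _ => ⟨1, E.one_mem, fun x _ => by simp⟩⟩
    obtain ⟨J, h6, h7, h8⟩ := cw hr (P := PP φ E) (d := m + 1)
      (A ×ˢ (Finset.univ : Finset (Fin (m + 1) → Option (Fin N') × σ)))
      (fun a x => B a.1 fun k => φ ((a.2 k).1.elim x v) (a.2 k).2)
      (fun a ha => (hB _ (Finset.mem_product.1 ha).1).deg fun k => h5 _)
      (fun a ha => by
        have ha' := (Finset.mem_product.1 ha).1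
        by_cases h9 : ∃ k, (a.2 k).1 = none
        · obtain ⟨k, hk⟩ := h9
          exact (hB _ ha').zero (fun i => (h5 _).1 1 (PP φ E).one_mem) (k := k) (by simp [hk])
        · refine h3 _ ha' _ fun k => ?_
          obtain ⟨t, ht⟩ := Option.ne_none_iff_exists'.1 fun e => h9 ⟨k, e⟩
          exact ⟨v t, hv t, (a.2 k).2, by simp [ht]⟩)
      (l.take D) (by
        rw [List.length_take, min_eq_left (by omega), hD, Finset.card_product, Finset.card_univ]
        gcongr)
      fun b hb => hP b (List.mem_of_mem_take hb)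
    refine ⟨J.prod :: l', ?_, by simp [h2], fun a ha x hx => ?_⟩
    · simpa using (Blk.of_sub h6 h7).append h1
    · have h9 : ∀ k, ∃ τ : Option (Fin N') × σ, x k = φ (τ.1.elim J.prod v) τ.2 := fun k => by
        obtain ⟨b, hb, s, e⟩ := hx k
        rcases List.mem_cons.1 hb with rfl | hb
        · exact ⟨(none, s), e⟩
        · obtain ⟨t, rfl⟩ := hv' b hb
          exact ⟨(some t, s), e⟩
      choose τ hτ using h9
      rw [funext hτ]
      exact h8 (a, τ) (Finset.mem_product.2 ⟨ha, Finset.mem_univ _⟩)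

end Pool.Agent.MP_5c28a4_al.H89S.CubeA
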