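import Pool.Agent.MP_5c28a4_al.H86S.CubeA

/-!
Descent along the refined lower central series, and the cube property of nilpotent groups.
-/

set_option autoImplicit false

namespace Pool.Agent.MP_5c28a4_al.H89S

open scoped commutatorElement

namespace CubeA

section Grp

variable {G : Type} [Group G]

/-- abelian sections -/
lemma exQ {H K : Subgroup G} (h : ⁅H, H⁆ ≤ K) : ∃ (Q : Type) (_ : CommGroup Q) (π : H →* Q),
    Function.Surjective π ∧ ∀ x : H, π x = 1 ↔ (x : G) ∈ K := by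
  have h1 : ∀ x y : H, (x : G) * y * (x : G)⁻¹ * (y : G)⁻¹ ∈ K := fun x y =>
    h (Subgroup.commutator_mem_commutator x.2 y.2)
  have hN : (K.subgroupOf H).Normal := ⟨fun n hn g => by
    simpa [Subgroup.mem_subgroupOf] using K.mul_mem (h1 g n) hn⟩
  refine ⟨H ⧸ K.subgroupOf H, { (inferInstance : Group (H ⧸ K.subgroupOf H)) with
    mul_comm := fun a b => ?_ }, QuotientGroup.mk' _, QuotientGroup.mk'_surjective _,
    fun x => QuotientGroup.eq_one_iff x⟩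
  obtain ⟨a, rfl⟩ := QuotientGroup.mk_surjective a
  obtain ⟨b, rfl⟩ := QuotientGroup.mk_surjective b
  refine QuotientGroup.eq.2 ?_
  simpa [Subgroup.mem_subgroupOf, mul_assoc] using h1 b⁻¹ a⁻¹

lemma addOn_one {A : Type} [AddCommGroup A] {X : Subgroup G} {ζ : G → A} (h : AddOn X ζ) :
    ζ 1 = 0 := by
  have h1 := h 1 X.one_mem 1 X.one_mem
  rw [mul_one] at h1
  exact left_eq_add.1 h1

/-- the kernel of an additive function -/
def kerOn {A : Type} [AddCommGroup A] {X : Subgroup G} {ζ : G → A} (h : AddOn X ζ) :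
    Subgroup G where
  carrier := {x | x ∈ X ∧ ζ x = 0}
  one_mem' := ⟨X.one_mem, addOn_one h⟩
  mul_mem' := fun {a b} ha hb => ⟨X.mul_mem ha.1 hb.1, by rw [h a ha.1 b hb.1, ha.2, hb.2, add_zero]⟩
  inv_mem' := fun {a} ha => ⟨X.inv_mem ha.1, by
    have h1 := h a ha.1 _ (X.inv_mem ha.1)
    rwa [mul_inv_cancel, addOn_one h, ha.2, zero_add, eq_comm] at h1⟩

lemma exDual' {F V : Type} [Field F] [AddCommGroup V] [Module F V] {v : V} (h : v ≠ 0) :
    ∃ f : V →+ F, f v ≠ 0 := by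
  obtain ⟨f, hf⟩ := Module.Projective.exists_dual_ne_zero F h
  exact ⟨f.toAddMonoidHom, hf⟩

lemma exDual {r : ℕ} (hr : r.Prime) {V : Type} [AddCommGroup V] (hV : ∀ x : V, r • x = 0) {v : V}
    (h : v ≠ 0) : ∃ f : V →+ ZMod r, f v ≠ 0 := by
  have : Fact r.Prime := ⟨hr⟩
  let _ : Module (ZMod r) V := AddCommGroup.zmodModule hV
  exact exDual' h

/-- a functional that does not vanish at a given element -/
lemma exFun {r : ℕ} (hr : r.Prime) {E₁ E₂ : Subgroup G} (h : ⁅E₁, E₁⁆ ≤ E₂)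
    (hp : ∀ x ∈ E₁, x ^ r ∈ E₂) {z : G} (hz : z ∉ E₂) :
    ∃ ζ : G → ZMod r, AddOn E₁ ζ ∧ (∀ x ∈ E₂, ζ x = 0) ∧ (z ∈ E₁ → ζ z ≠ 0) := by
  classical
  by_cases h1 : z ∈ E₁
  · obtain ⟨Q, _, π, h2, h3⟩ := exQ h
    obtain ⟨f, hf⟩ := exDual hr (V := Additive Q) (fun x => by
      obtain ⟨y, hy⟩ := h2 x.toMul
      have h4 := (h3 (y ^ r)).2 (hp y y.2)
      rw [map_pow, hy] at h4
      exact h4) (v := Additive.ofMul (π ⟨z, h1⟩)) fun e => hz ((h3 ⟨z, h1⟩).1 e)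
    refine ⟨fun x => if hx : x ∈ E₁ then f (Additive.ofMul (π ⟨x, hx⟩)) else 0,
      fun x hx y hy => ?_, fun x hx => ?_, fun _ => by simpa only [dif_pos h1] using hf⟩
    · simp only [dif_pos hx, dif_pos hy, dif_pos (E₁.mul_mem hx hy)]
      rw [← map_add, ← ofMul_mul, ← map_mul]
      rfl
    · beta_reduce
      split_ifs with h4
      · rw [(h3 ⟨x, h4⟩).2 hx, ofMul_one, map_zero]
      · rfl
  · exact ⟨0, fun _ _ _ _ => (add_zero _).symm, fun _ _ => rfl, fun h2 => absurd h2 h1⟩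

lemma pow_mem_pw {H : Subgroup G} {y : G} (hy : y ∈ H) (n : ℕ) : y ^ n ∈ pw H n :=
  Subgroup.subset_closure ⟨y, hy, rfl⟩

lemma pw_le {H K : Subgroup G} {n : ℕ} (h : ∀ y ∈ H, y ^ n ∈ K) : pw H n ≤ K :=
  (Subgroup.closure_le _).2 (by rintro _ ⟨y, hy, rfl⟩; exact h y hy)

lemma lcs_succ (E : Subgroup G) (j : ℕ) : E.lowerCentralSeries (j + 1) ≤ E.lowerCentralSeries j :=
  E.lowerCentralSeries_antitone (Nat.le_succ j)

lemma mu_le (E : Subgroup G) (j d : ℕ) : mu E j d ≤ E.lowerCentralSeries j :=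
  sup_le (pw_le fun _ hy => Subgroup.pow_mem _ hy d) (lcs_succ E j)

lemma lcs_comm (E : Subgroup G) (j : ℕ) :
    ⁅E.lowerCentralSeries j, E.lowerCentralSeries j⁆ ≤ E.lowerCentralSeries (j + 1) :=
  Subgroup.commutator_mono le_rfl (E.lowerCentralSeries_le_self j)

lemma pow_mem_mu {E : Subgroup G} {j : ℕ} {y : G} (hy : y ∈ E.lowerCentralSeries j) (d : ℕ) :
    y ^ d ∈ mu E j d := Subgroup.mem_sup_left (pow_mem_pw hy d)

/-- powers of products in an abelian section -/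
lemma pow_mul_eq {H K : Subgroup G} (h : ⁅H, H⁆ ≤ K) {x y : G} (hx : x ∈ H) (hy : y ∈ H) (d : ℕ) :
    ∃ z ∈ K, (x * y) ^ d = x ^ d * y ^ d * z := by
  obtain ⟨Q, _, π, -, h3⟩ := exQ h
  refine ⟨_, (h3 (((⟨x, hx⟩ : H) ^ d * (⟨y, hy⟩ : H) ^ d)⁻¹ * (⟨x, hx⟩ * ⟨y, hy⟩) ^ d)).1 ?_, ?_⟩
  · simp only [map_mul, map_inv, map_pow, mul_pow, inv_mul_cancel]
  · simp [mul_assoc]

/-- the hypotheses of the descent -/
structure Hyp (c n K : ℕ) (E₀ : Subgroup G) (Gd : Subgroup G → Prop) : Prop where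
  lcs : E₀.lowerCentralSeries c = ⊥
  exp : ∀ x ∈ E₀, x ^ n = 1
  bot : Gd ⊥
  anti : ∀ H H', H ≤ H' → Gd H' → Gd H
  step : ∀ r : ℕ, r.Prime → r ∣ n → ∀ E₁ E₂ : Subgroup G, E₂ ≤ E₁ → E₁ ≤ E₀ → ⁅E₁, E₁⁆ ≤ E₂ →
    (∀ x ∈ E₁, x ^ r ∈ E₂) → Gd E₂ → ∃ (ι : Type) (A : Finset ι) (ζ : ι → G → ZMod r),
      A.card ≤ K ∧ (∀ a ∈ A, AddOn E₁ (ζ a) ∧ ∀ x ∈ E₂, ζ a x = 0) ∧
        ∀ H ≤ E₁, (∀ a ∈ A, ∀ x ∈ H, ζ a x = 0) → Gd H

variable {α σ : Type} [Monoid α]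

/-- the subgroup generated by the values -/
def VL (φ : α →* σ → G) (l : List α) : Subgroup G := Subgroup.closure (vals φ l)

lemma VL_le {φ : α →* σ → G} {l : List α} {E : Subgroup G} (h : ∀ b ∈ l, b ∈ PP φ E) :
    VL φ l ≤ E := (Subgroup.closure_le _).2 (by rintro _ ⟨b, hb, s, rfl⟩; exact h b hb s)

lemma mem_PP_VL (φ : α →* σ → G) (l : List α) : ∀ b ∈ l, b ∈ PP φ (VL φ l) :=
  fun b hb s => Subgroup.subset_closure ⟨b, hb, s, rfl⟩

end Grp

/-- long lists have many blocks with a good term of the series -/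
def RR (σ : Type) (c n K : ℕ) (μ : ∀ (G : Type) [Group G], Subgroup G → Subgroup G) : Prop :=
  ∀ N' : ℕ, ∃ N : ℕ, ∀ (G α : Type) [Group G] [Monoid α] (φ : α →* σ → G) (E₀ : Subgroup G)
    (Gd : Subgroup G → Prop), Hyp c n K E₀ Gd → ∀ l : List α, N ≤ l.length →
    (∀ b ∈ l, b ∈ PP φ E₀) → ∃ l', Blk l l' ∧ l'.length = N' ∧ Gd (μ G (VL φ l'))

variable {σ : Type} {c n K : ℕ}

lemma RR.mono {μ μ' : ∀ (G : Type) [Group G], Subgroup G → Subgroup G} (h : RR σ c n K μ)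
    (e : ∀ (G : Type) [Group G] (E : Subgroup G), (∀ x ∈ E, x ^ n = 1) → μ' G E ≤ μ G E) :
    RR σ c n K μ' := fun N' => by
  obtain ⟨N, hN⟩ := h N'
  refine ⟨N, fun G α _ _ φ E₀ Gd hy l hl hP => ?_⟩
  obtain ⟨l', h1, h2, h3⟩ := hN G α φ E₀ Gd hy l hl hP
  exact ⟨l', h1, h2, hy.anti _ _ (e G _ fun x hx => hy.exp x (VL_le (h1.mem _ hP) hx)) h3⟩

lemma RR.step (hC : BCom) [Finite σ] {j d r : ℕ} (hr : r.Prime) (hn : r ∣ n)
    (h : RR σ c n K fun _ _ E => mu E j (d * r)) : RR σ c n K fun _ _ E => mu E j d := fun N' => by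
  obtain ⟨N₁, hN₁⟩ := blk σ j K hr N'
  obtain ⟨N, hN⟩ := h N₁
  refine ⟨N, fun G α _ _ φ E₀ Gd hy l hl hP => ?_⟩
  obtain ⟨l₁, h1, h2, h3⟩ := hN G α φ E₀ Gd hy l hl hP
  obtain ⟨E, hE⟩ : ∃ E, E = VL φ l₁ := ⟨_, rfl⟩
  rw [← hE] at h3
  have hZ : E.lowerCentralSeries (j + 1) ≤ mu E j (d * r) := le_sup_right
  have hZ' : E.lowerCentralSeries (j + 1) ≤ mu E j d := le_sup_right
  obtain ⟨ι, A, ζ, h4, h5, h6⟩ := hy.step r hr hn (mu E j d) (mu E j (d * r))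
    (sup_le (pw_le fun y hy => by
      rw [mul_comm, pow_mul]
      exact pow_mem_mu (Subgroup.pow_mem _ hy r) d) hZ')
    ((mu_le E j d).trans ((E.lowerCentralSeries_le_self j).trans (hE ▸ VL_le (h1.mem _ hP))))
    (((Subgroup.commutator_mono (mu_le E j d) (mu_le E j d)).trans (lcs_comm E j)).trans hZ)
    (fun x hx => by
      obtain ⟨y, hy, z, hz, rfl⟩ := (hC.muMem G E j d x).1 hx
      obtain ⟨z', hz', e⟩ := pow_mul_eq (lcs_comm E j) (Subgroup.pow_mem _ hy d) (lcs_succ E j hz) r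
      rw [e, ← pow_mul]
      exact mul_mem (mul_mem (pow_mem_mu hy _) (hZ (Subgroup.pow_mem _ hz r))) (hZ hz')) h3
  have h7 : ∀ a ∈ A, AddOn (E.lowerCentralSeries j) fun y => ζ a (y ^ d) := by
    intro a ha x hx y hy
    obtain ⟨z, hz, e⟩ := pow_mul_eq (lcs_comm E j) hx hy d
    simp only [e]
    rw [(h5 a ha).1 _ (mul_mem (pow_mem_mu hx d) (pow_mem_mu hy d)) _ (hZ' hz),
      (h5 a ha).1 _ (pow_mem_mu hx d) _ (pow_mem_mu hy d), (h5 a ha).2 z (hZ hz), add_zero]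
  have h8 : ∀ a (ha : a ∈ A), E.lowerCentralSeries (j + 1) ≤ kerOn (h7 a ha) := fun a ha z hz =>
    ⟨lcs_succ E j hz, (h5 a ha).2 _ (hZ (Subgroup.pow_mem _ hz d))⟩
  obtain ⟨l₂, h9, h10, h11⟩ := hN₁ G α ι φ E A (fun a x => ζ a (lc j x ^ d)) h4
    (fun a ha x k y z hx hy hz => by
      have m : ∀ v ∈ E, lc j (Function.update x k v) ∈ E.lowerCentralSeries j := fun v hv =>
        hC.mem G E j _ fun i => by
          rcases eq_or_ne i k with rfl | hi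
          · rwa [Function.update_self]
          · rw [Function.update_of_ne hi]
            exact hx i
      have e := h7 a ha _ (h8 a ha (hC.mul G E j x k y z hx hy hz)).1 _ (mul_mem (m y hy) (m z hz))
      have e' := (h8 a ha (hC.mul G E j x k y z hx hy hz)).2
      simp only [inv_mul_cancel_right] at e
      beta_reduce at e'
      beta_reduce
      rw [e, e', zero_add]
      exact h7 a ha _ (m y hy) _ (m z hz))
    l₁ h2.ge (hE ▸ mem_PP_VL φ l₁)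
  have h12 : VL φ l₂ ≤ E := VL_le (h9.mem _ (hE ▸ mem_PP_VL φ l₁))
  have h13 := fun i => Subgroup.lowerCentralSeries_mono i h12
  refine ⟨l₂, h1.trans h9, h10, h6 _ (sup_le (pw_le fun y hy => pow_mem_mu (h13 j hy) d)
    ((h13 _).trans hZ')) fun a ha x hx => ?_⟩
  have h14 : (VL φ l₂).lowerCentralSeries j ≤ kerOn (h7 a ha) := by
    refine (hC.gen G _ j).trans (sup_le ((Subgroup.closure_le _).2 ?_) ((h13 _).trans (h8 a ha)))
    rintro _ ⟨x, hx, rfl⟩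
    exact ⟨hC.mem G E j x fun i => h12 (Subgroup.subset_closure (hx i)), h11 a ha x hx⟩
  have h15 : mu (VL φ l₂) j d ≤ kerOn (h5 a ha).1 :=
    sup_le (pw_le fun y hy => ⟨pow_mem_mu (h13 j hy) d, (h14 hy).2⟩)
      fun z hz => ⟨hZ' (h13 _ hz), (h5 a ha).2 z (hZ (h13 _ hz))⟩
  exact (h15 hx).2

lemma RR.steps (hC : BCom) [Finite σ] {j : ℕ} (m : ℕ) : m ≠ 0 → m ∣ n → ∀ d,
    (RR σ c n K fun _ _ E => mu E j (d * m)) → RR σ c n K fun _ _ E => mu E j d := by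
  induction m using induction_on_primes with
  | zero => exact fun h => absurd rfl h
  | one => exact fun _ _ d h => by simpa only [mul_one] using h
  | prime_mul p a hp ih =>
    intro h0 h1 d h
    refine RR.step hC hp ((Dvd.intro _ rfl).trans h1)
      (ih (right_ne_zero_of_mul h0) ((Dvd.intro_left _ rfl).trans h1) _ ?_)
    simpa only [mul_assoc] using h

/-- the descent -/
lemma rnd (hC : BCom) (σ : Type) [Finite σ] (c K : ℕ) {n : ℕ} (hn : 0 < n) :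
    RR σ c n K fun _ _ E => E := by
  have h : ∀ k j, j + k = c → RR σ c n K fun _ _ E => E.lowerCentralSeries j := by
    intro k
    induction k with
    | zero =>
      rintro j rfl N'
      refine ⟨N', fun G α _ _ φ E₀ Gd hy l hl hP => ⟨l.take N', .of_sublist (List.take_sublist _ _),
        by simp [hl], hy.anti _ _ ?_ hy.bot⟩⟩
      exact (Subgroup.lowerCentralSeries_mono _
        (VL_le fun b hb => hP b (List.mem_of_mem_take hb))).trans hy.lcs.le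
    | succ k ih =>
      intro j hj
      refine (RR.steps hC (j := j) n hn.ne' dvd_rfl 1 ((ih (j + 1) (by omega)).mono
        fun G _ E hE => sup_le (pw_le fun y hy => ?_) le_rfl)).mono fun G _ E _ y hy => ?_
      · rw [one_mul, hE y (E.lowerCentralSeries_le_self j hy)]
        exact one_mem _
      · simpa only [pow_one] using pow_mem_mu hy 1
  exact h c 0 (zero_add c)

lemma hyp_base {G : Type} [Group G] {E : Subgroup G} (h1 : E.lowerCentralSeries c = ⊥)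
    (h2 : ∀ x ∈ E, x ^ n = 1) {z : G} (hz : z ≠ 1) : Hyp c n 1 E fun H => z ∉ H := by
  refine ⟨h1, h2, hz, fun H H' h h' hH => h' (h hH), fun r hr _ E₁ E₂ _ _ h3 h4 h5 => ?_⟩
  obtain ⟨ζ, h6, h7, h8⟩ := exFun hr h3 h4 h5
  exact ⟨Unit, {()}, fun _ => ζ, le_rfl, fun _ _ => ⟨h6, h7⟩,
    fun H hH h9 hz' => h8 (hH hz') (h9 () (Finset.mem_singleton_self _) z hz')⟩

/-- the cube property of nilpotent groups, uniform form -/
lemma base' (hC : BCom) (σ : Type) [Finite σ] (c : ℕ) {n : ℕ} (hn : 0 < n) : ∃ N : ℕ,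
    ∀ (G α : Type) [Group G] [Monoid α] (φ : α →* σ → G) (E : Subgroup G),
      E.lowerCentralSeries c = ⊥ → (∀ x ∈ E, x ^ n = 1) → ∀ z : G, z ≠ 1 → ∀ l : List α,
      N ≤ l.length → (∀ b ∈ l, b ∈ PP φ E) → ∃ J : List α, J.Sublist l ∧ J ≠ [] ∧
        z ∉ Subgroup.closure (Set.range (φ J.prod)) := by
  obtain ⟨N, hN⟩ := rnd hC σ c 1 hn 1
  refine ⟨N, fun G α _ _ φ E h1 h2 z hz l hl hP => ?_⟩
  obtain ⟨l', h3, h4, h5⟩ := hN G α φ E _ (hyp_base h1 h2 hz) l hl hP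
  obtain ⟨x, rfl⟩ := List.length_eq_one_iff.1 h4
  obtain ⟨J, h6, h7, rfl⟩ := h3.ex x List.mem_cons_self
  refine ⟨J, h6, h7, fun h8 => h5 (Subgroup.closure_mono ?_ h8)⟩
  rintro _ ⟨s, rfl⟩
  exact ⟨_, List.mem_cons_self, s, rfl⟩

end CubeA

theorem base (hC : BCom) : SBase := by
  intro E σ _ _ c n hn h1 h2
  obtain ⟨N, hN⟩ := CubeA.base' hC σ c hn
  exact ⟨N, fun z hz l hl _ =>
    hN E (σ → E) (MonoidHom.id _) ⊤ h1 (fun x _ => h2 x) z hz l hl fun _ _ _ => trivial⟩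

end Pool.Agent.MP_5c28a4_al.H89S
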