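import Pool.Agent.MP_5c28a4_al.H86S.CubeB

/-!
Windows: the conjugates of the entries of a tuple by short words.
-/

set_option autoImplicit false

namespace Pool.Agent.MP_5c28a4_al.H89S.CubeA

open scoped commutatorElement

section Gen

variable {G H : Type} [Group G] [Group H]

lemma nz_iff {z : G} {P : Subgroup G} : Nz z P ↔ z ∈ Subgroup.normalizer (P : Set G) := by
  refine ⟨fun h x => ⟨fun hx => (h x hx).1, fun hx => ?_⟩, fun h x hx =>
    ⟨(h x).1 hx, (Subgroup.mem_normalizer_iff''.1 h x).1 hx⟩⟩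
  simpa [mul_assoc] using (h _ hx).2

lemma nz_normal {P : Subgroup G} (h : P.Normal) (z : G) : Nz z P := fun x hx =>
  ⟨h.conj_mem x hx z, by simpa using h.conj_mem x hx z⁻¹⟩

lemma nz_comm {X K : Subgroup G} (h : ⁅X, X⁆ ≤ K) (hK : K ≤ X) {z : G} (hz : z ∈ X) : Nz z K := by
  have h1 : ∀ y ∈ X, ∀ x ∈ K, y * x * y⁻¹ ∈ K := fun y hy x hx => by
    simpa [commutatorElement_def] using
      K.mul_mem (h (Subgroup.commutator_mem_commutator hy (hK hx))) hx
  exact fun x hx => ⟨h1 z hz x hx, by simpa using h1 _ (X.inv_mem hz) x hx⟩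

lemma nz_map (π : G →* H) {z : G} {P : Subgroup G} (h : Nz z P) : Nz (π z) (P.map π) := by
  rintro _ ⟨x, hx, rfl⟩
  exact ⟨⟨_, (h x hx).1, by simp⟩, ⟨_, (h x hx).2, by simp⟩⟩

lemma nz_cen {z : G} {P : Subgroup G} (h : Nz z P) : Nz z (Subgroup.centralizer (P : Set G)) := by
  refine fun x hx => ⟨fun y hy => ?_, fun y hy => ?_⟩
  · have h1 := hx _ (h y hy).2
    calc y * (z * x * z⁻¹) = z * (z⁻¹ * y * z * x) * z⁻¹ := by group
      _ = z * x * z⁻¹ * y := by rw [h1]; group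
  · have h1 := hx _ (h y hy).1
    calc y * (z⁻¹ * x * z) = z⁻¹ * (z * y * z⁻¹ * x) * z := by group
      _ = z⁻¹ * x * z * y := by rw [h1]; group

lemma locFin_map (π : G →* H) {X : Subgroup G} (h : LocFin X) : LocFin (X.map π) := by
  classical
  intro T hT
  obtain ⟨T', h1, rfl⟩ := Finset.subset_set_image_iff.1 (show (T : Set H) ⊆ π '' X from hT)
  have := h T' h1
  rw [Finset.coe_image, ← MonoidHom.map_closure]
  exact Finite.of_surjective _ (π.subgroupMap_surjective _)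

lemma cz_bot {M : Subgroup G} {S : Set G} {x : G} (h : x ∈ cz ⊥ M S) :
    x ∈ M ∧ x ∈ Subgroup.centralizer S := by
  refine ⟨h.1, fun s hs => ?_⟩
  have h1 := h.2 _ ⟨s, hs, rfl⟩
  rw [← map_mul, ← map_mul] at h1
  have h2 := QuotientGroup.eq.1 h1
  exact inv_mul_eq_one.1 h2

lemma pow_exp {r n e : ℕ} (hr : r.Prime) (hn : 0 < n) {x : G} (h1 : x ^ n = 1)
    (h2 : x ^ r ^ e = 1) : x ^ r ^ n = 1 := by
  obtain ⟨k, -, hk⟩ := (Nat.dvd_prime_pow hr).1 (orderOf_dvd_of_pow_eq_one h2)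
  have h3 := Nat.le_of_dvd hn (orderOf_dvd_of_pow_eq_one h1)
  rw [← orderOf_dvd_iff_pow_eq_one, hk]
  exact pow_dvd_pow r ((Nat.lt_pow_self hr.one_lt).le.trans (hk ▸ h3))

lemma mem_dir {ι : Type} {Y : Subgroup G} {M : ι → Subgroup G} {x : G} (h : x ∈ Y ⊔ ⨆ α, M α) :
    ∃ A : Finset ι, x ∈ Y ⊔ ⨆ α ∈ A, M α := by
  have h1 : Monotone fun A : Finset ι => Y ⊔ ⨆ α ∈ A, M α := fun A B e =>
    sup_le_sup_left (biSup_mono e) Y
  have h2 : Y ⊔ ⨆ α, M α ≤ ⨆ A : Finset ι, Y ⊔ ⨆ α ∈ A, M α :=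
    sup_le (le_iSup_of_le ∅ le_sup_left) (iSup_le fun α => le_iSup_of_le {α}
      (le_sup_of_le_right (le_iSup₂_of_le α (Finset.mem_singleton_self α) le_rfl)))
  exact (Subgroup.mem_iSup_of_directed h1.directed_le).1 (h2 h)

variable {α σ : Type} [Monoid α]

/-- composition with a homomorphism -/
def cφ (π : G →* H) (φ : α →* σ → G) : α →* σ → H := (π.compLeft σ).comp φ

lemma map_VL (π : G →* H) (φ : α →* σ → G) (l : List α) : (VL φ l).map π = VL (cφ π φ) l := by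
  rw [VL, MonoidHom.map_closure]
  refine congrArg Subgroup.closure (Set.ext fun x => ⟨?_, ?_⟩)
  · rintro ⟨_, ⟨b, hb, s, rfl⟩, rfl⟩
    exact ⟨b, hb, s, rfl⟩
  · rintro ⟨b, hb, s, rfl⟩
    exact ⟨_, ⟨b, hb, s, rfl⟩, rfl⟩

lemma vals_fin [Finite σ] (φ : α →* σ → G) (l : List α) : (vals φ l).Finite := by
  refine ((l.finite_toSet.prod (Set.finite_univ (α := σ))).image fun p => φ p.1 p.2).subset ?_
  rintro _ ⟨b, hb, s, rfl⟩
  exact ⟨(b, s), ⟨hb, trivial⟩, rfl⟩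

lemma VL_fin [Finite σ] {X : Subgroup G} (h : LocFin X) {φ : α →* σ → G} {l : List α}
    (hl : VL φ l ≤ X) : Finite (VL φ l) := by
  have h1 := h (vals_fin φ l).toFinset fun t ht =>
    hl (Subgroup.subset_closure ((Set.Finite.mem_toFinset _).1 ht))
  rwa [Set.Finite.coe_toFinset] at h1

lemma exPi {Y : Subgroup G} (h : Y.Normal) : ∃ (H : Type) (_ : Group H) (π : G →* H),
    π.ker = Y ∧ Function.Surjective π :=
  ⟨G ⧸ Y, inferInstance, QuotientGroup.mk' Y, QuotientGroup.ker_mk' Y,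
    QuotientGroup.mk'_surjective Y⟩

lemma pmod_of {r : ℕ} {Y : Subgroup G} {π : G →* H} (hk : π.ker = Y) {J : Subgroup H}
    (hJ : PMod r ⊥ J) {φ : α →* σ → G} {l : List α} (h : ∀ b ∈ l, ∀ s, π (φ b s) ∈ J) :
    PMod r Y (VL φ l) := fun x hx => by
  obtain ⟨e, he⟩ := hJ _ (VL_le (E := J.comap π) h hx)
  exact ⟨e, hk ▸ (map_pow π _ _).trans he⟩

lemma pmod_map {r : ℕ} (π : G →* H) {Z X : Subgroup G} (h : PMod r Z X) :
    PMod r (Z.map π) (X.map π) := by
  rintro _ ⟨x, hx, rfl⟩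
  obtain ⟨e, he⟩ := h x hx
  exact ⟨e, _, he, map_pow _ _ _⟩

lemma pmod_bot {r : ℕ} {Y X : Subgroup G} {π : G →* H} (hk : π.ker = Y) (h : PMod r Y X) :
    PMod r ⊥ (X.map π) := by
  have h1 := pmod_map π h
  rwa [(Subgroup.map_eq_bot_iff Y).2 hk.ge] at h1

variable {I : Type}

lemma map_lift (π : G →* H) (g : I → G) (f : FreeGroup I) :
    π (FreeGroup.lift g f) = FreeGroup.lift (fun i => π (g i)) f :=
  FreeGroup.lift_unique (π.comp (FreeGroup.lift g)) fun _ => by simp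

lemma phi_cong {w : FreeGroup I} {Y Y' : Subgroup G} {π : G →* H} (hk : π.ker = Y') (hY : Y ≤ Y')
    {g g' : I → G} (h : Phi w Y g) (e : ∀ i, π (g i) = π (g' i)) : Phi w Y' g' := by
  obtain ⟨u, h1, h2⟩ := h
  refine ⟨u * (g * g'⁻¹), fun i => Y'.mul_mem (hY (h1 i)) ?_, by simpa [mul_assoc] using h2⟩
  rw [← hk, MonoidHom.mem_ker, Pi.mul_apply, Pi.inv_apply, map_mul, e, map_inv, mul_inv_cancel]

lemma phi_of {w : FreeGroup I} (Y : Subgroup G) {g : I → G} (h : FreeGroup.lift g w ≠ 1) :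
    Phi w Y g := ⟨1, fun _ => Y.one_mem, by rwa [one_mul]⟩

end Gen

section Win

variable {G H I : Type} [Group G] [Group H] [DecidableEq I]

/-- index set of a window -/
abbrev WI (I : Type) [DecidableEq I] (n : ℕ) : Type := {f : FreeGroup I // f.norm ≤ n} × I

lemma finite_WI [Finite I] (n : ℕ) : Finite (WI I n) := by
  have : Finite {f : FreeGroup I // f.norm ≤ n} :=
    ((List.finite_length_le (I × Bool) n).preimage FreeGroup.toWord_injective.injOn).to_subtype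
  infer_instance

/-- the conjugates of the entries -/
def wφ (g : I → G) (n : ℕ) : (I → G) →* WI I n → G where
  toFun b s := FreeGroup.lift g s.1.1 * b s.2 * (FreeGroup.lift g s.1.1)⁻¹
  map_one' := funext fun s => by simp
  map_mul' a b := funext fun s => by simp [mul_assoc]

lemma wφ_apply (g : I → G) (n : ℕ) (b : I → G) (s : WI I n) :
    wφ g n b s = FreeGroup.lift g s.1.1 * b s.2 * (FreeGroup.lift g s.1.1)⁻¹ := rfl

lemma wφ_one (g : I → G) (n : ℕ) (b : I → G) (i : I) :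
    wφ g n b (⟨1, Nat.zero_le n⟩, i) = b i := by simp [wφ_apply]

lemma wφ_map (π : G →* H) (g : I → G) (n : ℕ) (b : I → G) (s : WI I n) :
    π (wφ g n b s) = wφ (fun i => π (g i)) n (fun i => π (b i)) s := by
  simp only [wφ_apply, map_mul, map_inv, map_lift]

lemma wφ_mem {E : Subgroup G} {g : I → G} (hE : ∀ i, Nz (g i) E) (n : ℕ) {b : I → G}
    (h : All E b) : b ∈ PP (wφ g n) E := fun s =>
  (nz_iff.2 (FreeGroup.range_lift_le (s := Subgroup.normalizer (E : Set G))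
    (by rintro _ ⟨i, rfl⟩; exact nz_iff.1 (hE i)) ⟨s.1.1, rfl⟩) _ (h s.2)).1

lemma wordInd {P : ℕ → FreeGroup I → Prop} (h1 : P 0 1) (h2 : ∀ n f i, f.norm ≤ n → P n f →
    P (n + 1) (FreeGroup.of i * f) ∧ P (n + 1) ((FreeGroup.of i)⁻¹ * f)) (f : FreeGroup I) :
    P f.norm f := by
  have h : ∀ L : List (I × Bool), P L.length (FreeGroup.mk L) := by
    intro L
    induction L with
    | nil => exact h1
    | cons x L ih =>
      obtain ⟨i, _ | _⟩ := x
      · exact (h2 _ _ i FreeGroup.norm_mk_le ih).2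
      · exact (h2 _ _ i FreeGroup.norm_mk_le ih).1
  have h3 := h f.toWord
  rwa [FreeGroup.mk_toWord] at h3

lemma norm_succ {n : ℕ} {f f' : FreeGroup I} (h : f.norm ≤ 1) (h' : f'.norm ≤ n) :
    (f * f').norm ≤ n + 1 := (FreeGroup.norm_mul_le f f').trans (by omega)

lemma wφ_conj {g b : I → G} {n : ℕ} {f : FreeGroup I} (hf : f.norm ≤ 1) {x : G}
    (hx : x ∈ Subgroup.closure (Set.range (wφ g n b))) :
    FreeGroup.lift g f * x * (FreeGroup.lift g f)⁻¹ ∈
      Subgroup.closure (Set.range (wφ g (n + 1) b)) := by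
  refine (Subgroup.closure_le (Subgroup.comap (MulAut.conj (FreeGroup.lift g f)).toMonoidHom
    (Subgroup.closure (Set.range (wφ g (n + 1) b))))).2 ?_ hx
  rintro _ ⟨⟨⟨f', h⟩, i⟩, rfl⟩
  exact Subgroup.subset_closure ⟨(⟨f * f', norm_succ hf h⟩, i), by simp [wφ_apply, mul_assoc]⟩

lemma lift_mem (g b : I → G) (w : FreeGroup I) :
    FreeGroup.lift (b * g) w * (FreeGroup.lift g w)⁻¹ ∈
      Subgroup.closure (Set.range (wφ g w.norm b)) := by
  have h0 : ∀ n i, b i ∈ Subgroup.closure (Set.range (wφ g n b)) := fun n i =>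
    Subgroup.subset_closure ⟨_, wφ_one g n b i⟩
  refine wordInd (P := fun n f => FreeGroup.lift (b * g) f * (FreeGroup.lift g f)⁻¹ ∈
    Subgroup.closure (Set.range (wφ g n b))) (by simp) (fun n f i _ h => ⟨?_, ?_⟩) w
  · simpa [mul_assoc] using mul_mem (h0 (n + 1) i) (wφ_conj (FreeGroup.norm_of i).le h)
  · simpa [mul_assoc] using wφ_conj (f := (FreeGroup.of i)⁻¹) (by simp)
      (mul_mem (inv_mem (h0 n i)) h)

lemma wφ_cen {g b u : I → G} {n : ℕ} (h : ∀ i s, wφ g n b s * u i = u i * wφ g n b s) :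
    wφ (u * g) n b = wφ g n b := by
  funext s
  refine wordInd (P := fun m f => m ≤ n → FreeGroup.lift (u * g) f * b s.2 *
    (FreeGroup.lift (u * g) f)⁻¹ = FreeGroup.lift g f * b s.2 * (FreeGroup.lift g f)⁻¹)
    (by simp) (fun m f i hf ih => ⟨fun hm => ?_, fun hm => ?_⟩) s.1.1 s.1.2
  · have h1 := h i (⟨FreeGroup.of i * f, (norm_succ (FreeGroup.norm_of i).le hf).trans hm⟩, s.2)
    simp only [wφ_apply, map_mul, FreeGroup.lift_apply_of, Pi.mul_apply] at h1 ⊢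
    calc _ = u i * g i * (FreeGroup.lift (u * g) f * b s.2 * (FreeGroup.lift (u * g) f)⁻¹) *
          (g i)⁻¹ * (u i)⁻¹ := by group
      _ = u i * (g i * FreeGroup.lift g f * b s.2 * (g i * FreeGroup.lift g f)⁻¹) * (u i)⁻¹ := by
          rw [ih (by omega)]; group
      _ = _ := by rw [← h1, mul_inv_cancel_right]
  · have h1 := h i (⟨f, by omega⟩, s.2)
    simp only [wφ_apply, map_mul, map_inv, FreeGroup.lift_apply_of, Pi.mul_apply] at h1 ⊢
    calc _ = (g i)⁻¹ * (u i)⁻¹ * (FreeGroup.lift (u * g) f * b s.2 *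
          (FreeGroup.lift (u * g) f)⁻¹ * u i) * g i := by group
      _ = _ := by rw [ih (by omega), h1]; group

lemma VL_win (g : I → G) (n : ℕ) (l : List (I → G)) :
    VL (wφ g n) l = win g n (vals (MonoidHom.id _) l) := by
  refine congrArg Subgroup.closure (Set.ext fun x => ⟨?_, ?_⟩)
  · rintro ⟨b, hb, s, rfl⟩
    exact ⟨s.1.1, s.1.2, _, ⟨b, hb, s.2, rfl⟩, rfl⟩
  · rintro ⟨f, hf, _, ⟨b, hb, i, rfl⟩, rfl⟩
    exact ⟨b, hb, (⟨f, hf⟩, i), rfl⟩

end Win

end Pool.Agent.MP_5c28a4_al.H89S.CubeA
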